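import Pool.Agent.E8helper28.GS.Lim

open Filter Topology MeasureTheory

namespace Pool.Agent.Results.MP_21f43f_nt.BetweenGoeAndGseH28

/-! ### The zeros of zeta -/

/-- multiplicity of `s` as a zero of the Riemann zeta function (order of vanishing at `s`) -/
noncomputable def zmult (s : ℂ) : ℕ := analyticOrderNatAt riemannZeta s

/-- the number of nontrivial zeros of `ζ` with ordinate in `(0, t]`, with multiplicity -/
noncomputable def NZ (t : ℝ) : ℕ :=
  ∑ᶠ s ∈ {s : ℂ | riemannZeta s = 0 ∧ 0 < s.re ∧ s.re < 1 ∧ 0 < s.im ∧ s.im ≤ t}, zmult s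

/-- for `n ≥ 1`: the `n`-th positive ordinate `γ n` of a nontrivial zero of `ζ`, the ordinates being
listed in nondecreasing order and repeated according to multiplicity -/
noncomputable def γ (n : ℕ) : ℝ := sInf {t : ℝ | n ≤ NZ t}

/-- the normalised gaps `δ_n = (γ_{n+1} log γ_{n+1} - γ_n log γ_n) / 2π` -/
noncomputable def δ (n : ℕ) : ℝ :=
  (γ (n + 1) * Real.log (γ (n + 1)) - γ n * Real.log (γ n)) / (2 * Real.pi)

/-- the proportion of the indices `n ≤ N` with `δ_n ∈ (a, b]` -/
noncomputable def P (N : ℕ) (a b : ℝ) : ℝ :=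
  (((Finset.Icc 1 N).filter (fun n => a < δ n ∧ δ n ≤ b)).card : ℝ) / N

/-- the average of `(t - δ_n)₊` over `n ≤ N`, that is, the integral over `x ≤ t` of the proportion
of the indices `n ≤ N` with `δ_n ≤ x` -/
noncomputable def H (N : ℕ) (t : ℝ) : ℝ := (∑ n ∈ Finset.Icc 1 N, max 0 (t - δ n)) / N

/-! ### The gap probabilities of random matrix theory -/

/-- the Fredholm determinant `det (I - k)` of the kernel `k` on `L²(0, s)` (Fredholm's series) -/
noncomputable def D (k : ℝ → ℝ → ℝ) (s : ℝ) : ℝ :=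
  ∑' n : ℕ, (-1 : ℝ) ^ n / (n.factorial : ℝ) *
    ∫ x in Set.univ.pi (fun _ : Fin n => Set.Icc (0 : ℝ) s),
      (Matrix.of fun i j => k (x i) (x j)).det

/-- `S x = sin (π x) / (π x)` -/
noncomputable def S (x : ℝ) : ℝ := Real.sinc (Real.pi * x)

/-- the even part of the sine kernel under the reflection `x ↦ s - x` of `(0, s)` -/
noncomputable def Sev (s x y : ℝ) : ℝ := (S (x - y) + S (x + y - s)) / 2

/-- the odd part of the sine kernel under the reflection `x ↦ s - x` of `(0, s)` -/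
noncomputable def Sod (s x y : ℝ) : ℝ := (S (x - y) - S (x + y - s)) / 2

/-- the gap probability of the GOE in the bulk: the probability that an interval of length `s`
(in units of the mean spacing) contains no eigenvalue -/
noncomputable def EGOE (s : ℝ) : ℝ := D (Sev s) s

/-- the gap probability of the GSE in the bulk -/
noncomputable def EGSE (s : ℝ) : ℝ := (D (Sev (2 * s)) (2 * s) + D (Sod (2 * s)) (2 * s)) / 2

/-- `Fl` is the distribution function of the spacing law (on `[0, ∞)`) whose gap probability is `E`: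
that law has density `E''`, so that `Fl = 1 + E'`, that is `∫₀ᵗ Fl = E t - 1 + t` -/
def IsLaw (E Fl : ℝ → ℝ) : Prop :=
  (∀ t : ℝ, 0 ≤ t → ∫ x in (0 : ℝ)..t, Fl x = E t - 1 + t) ∧ Tendsto Fl atTop (𝓝 1)

/-- On the Riemann hypothesis, the law of the normalised gaps of the zeta zeros is strictly between
that of the GSE and that of the GOE, uniformly in `N`; in particular it converges to neither of
them, along any subsequence. -/
theorem result (RH : RiemannHypothesis) :
    (∃ c : ℝ, 0 < c ∧ ∀ᶠ N : ℕ in atTop,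
      (∃ t : ℝ, 0 < t ∧ t ≤ 1 ∧ (EGSE t - 1 + t) + c ≤ H N t) ∧
      (∃ t : ℝ, 0 < t ∧ t ≤ 1 ∧ H N t + c ≤ EGOE t - 1 + t)) ∧
    (∀ E : ℝ → ℝ, E = EGSE ∨ E = EGOE → ∀ Fl : ℝ → ℝ, IsLaw E Fl →
      ∀ Nj : ℕ → ℕ, StrictMono Nj → ∃ a b : ℝ, 0 ≤ a ∧ a < b ∧
        ¬ Tendsto (fun j => P (Nj j) a b) atTop (𝓝 (Fl b - Fl a))) := by
  have hH : ∀ (N : ℕ) (t : ℝ), H N t = E8helper28.GS.HH N t / N := fun _ _ => rfl
  have h1 : ∀ s, EGOE s = E8helper28.RM.EG1 s := fun _ => rfl
  have h4 : ∀ s, EGSE s = E8helper28.RM.EG4 s := fun _ => rfl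
  refine ⟨?_, ?_⟩
  · obtain ⟨c, hc, h⟩ := E8helper28.GS.gse_side RH
    refine ⟨min c 0.0007, lt_min hc (by norm_num), ?_⟩
    filter_upwards [h, E8helper28.GS.goe_side RH, eventually_gt_atTop 0] with N hN hN' hN0
    obtain ⟨t, ht0, ht1, ht⟩ := hN
    have hNp : (0 : ℝ) < N := by exact_mod_cast hN0
    constructor
    · refine ⟨t, ht0, ht1, ?_⟩
      rw [← le_div_iff₀ hNp] at ht
      rw [hH, h4]
      have := min_le_left c 0.0007
      linarith
    · refine ⟨1, one_pos, le_rfl, ?_⟩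
      have h2 : H N 1 ≤ 0.2045 := by
        rw [hH, div_le_iff₀ hNp]
        exact hN'
      have h3 := E8helper28.RM.EG1_one
      have h5 := min_le_right c 0.0007
      rw [h1]
      norm_num at h2 h3 h5 ⊢
      linarith [min_le_right c (7 / 10000)]
  · intro E hE Fl hFl Nj hNj
    have hE' : E = E8helper28.RM.EG1 ∨ E = E8helper28.RM.EG4 ∨ E = fun s => Real.exp (-s) := by
      rcases hE with h | h
      · exact Or.inr (Or.inl h)
      · exact Or.inl h
    exact E8helper28.GS.no_int RH hE' (fun t ht _ => hFl.1 t ht.le) hFl.2 hNj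

end Pool.Agent.Results.MP_21f43f_nt.BetweenGoeAndGseH28
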