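import Pool.Agent.E8helper29.DT.Main

open Filter Topology MeasureTheory

namespace Pool.Agent.Results.MP_21f43f_nt.DeterminantalLawsH29

/-! ### The zeros of zeta -/

/-- multiplicity of `s` as a zero of the Riemann zeta function (order of vanishing at `s`) -/
noncomputable def zmult (s : ℂ) : ℕ := analyticOrderNatAt riemannZeta s

/-- the number of nontrivial zeros of `ζ` with ordinate in `(0, t]`, with multiplicity -/
noncomputable def NZ (t : ℝ) : ℕ :=
  ∑ᶠ s ∈ {s : ℂ | riemannZeta s = 0 ∧ 0 < s.re ∧ s.re < 1 ∧ 0 < s.im ∧ s.im ≤ t}, zmult s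

/-- for `n ≥ 1`: the `n`-th positive ordinate `γ n` of a nontrivial zero of `ζ`, the ordinates being
listed in nondecreasing order and repeated according to multiplicity -/
noncomputable def γ (n : ℕ) : ℝ := sInf {t : ℝ | n ≤ NZ t}

/-- the normalised `k`-step gap `δ_n + ⋯ + δ_{n+k-1}`, where
`δ_n = (γ_{n+1} log γ_{n+1} - γ_n log γ_n) / 2π` -/
noncomputable def gap (k n : ℕ) : ℝ :=
  (γ (n + k) * Real.log (γ (n + k)) - γ n * Real.log (γ n)) / (2 * Real.pi)

/-- the proportion of the indices `n ≤ N` for which the `k`-step gap is in `(a, b]` -/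
noncomputable def P (N k : ℕ) (a b : ℝ) : ℝ :=
  (((Finset.Icc 1 N).filter (fun n => a < gap k n ∧ gap k n ≤ b)).card : ℝ) / N

/-! ### Stationary determinantal processes -/

/-- the symbols `f : ℝ → [0, 1]` of the stationary determinantal processes of intensity `1` on `ℝ`
with a Hermitian translation invariant kernel -/
structure IsSymbol (f : ℝ → ℝ) : Prop where
  meas : Measurable f
  nonneg : ∀ t, 0 ≤ f t
  le_one : ∀ t, f t ≤ 1
  int : Integrable f
  one : ∫ t, f t = 1

/-- the kernel `K(x - y)` of the process `P_f` -/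
noncomputable def K (f : ℝ → ℝ) (x : ℝ) : ℂ :=
  ∫ t, (f t : ℂ) * Complex.exp (2 * Real.pi * x * t * Complex.I)

/-- the integral of the `m`-point correlation function of `P_f` over `[0, s]^m` -/
noncomputable def J (f : ℝ → ℝ) (m : ℕ) (s : ℝ) : ℝ :=
  ∫ x in Set.univ.pi (fun _ : Fin m => Set.Icc (0 : ℝ) s),
    ((Matrix.of fun i j => K f (x i - x j)).det).re

/-- the probability that `P_f` has exactly `j` points in an interval of length `s` -/
noncomputable def E (f : ℝ → ℝ) (j : ℕ) (s : ℝ) : ℝ :=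
  (∑' m : ℕ, (-1 : ℝ) ^ m / (m.factorial : ℝ) * J f (j + m) s) / (j.factorial : ℝ)

/-- `G` is (on `[0, ∞)`) the distribution function of the `k`-step gap of `P_f`: the density of that
gap is the second derivative of `∑_{j<k} (k - j) E_j` (for `k = 1`: of `E_0`), so that
`∫₀ᵗ G = t - k + ∑_{j<k} (k - j) E_j(t)` -/
def IsGapLaw (f : ℝ → ℝ) (k : ℕ) (G : ℝ → ℝ) : Prop :=
  ∀ t : ℝ, 0 ≤ t → ∫ x in (0 : ℝ)..t, G x = t - k + ∑ j ∈ Finset.range k, ((k : ℝ) - j) * E f j t

/-- the same integral for the sine process (the limit of the bulk of the GUE) -/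
noncomputable def Jsine (m : ℕ) (s : ℝ) : ℝ :=
  ∫ x in Set.univ.pi (fun _ : Fin m => Set.Icc (0 : ℝ) s),
    (Matrix.of fun i j => Real.sinc (Real.pi * (x i - x j))).det

/-- On the Riemann hypothesis, a stationary determinantal process with a Hermitian translation
invariant kernel is either the sine process or its gap laws are not the limit laws of the
normalised gaps of the zeta zeros, along any sequence. -/
theorem result (RH : RiemannHypothesis) (f : ℝ → ℝ) (hf : IsSymbol f) :
    (∀ (m : ℕ) (s : ℝ), J f m s = Jsine m s) ∨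
    ∀ G : ℕ → ℝ → ℝ, (∀ k : ℕ, 1 ≤ k → IsGapLaw f k (G k)) →
      ∀ N : ℕ → ℕ, Tendsto N atTop atTop →
        ∃ k : ℕ, 1 ≤ k ∧ ∃ a b : ℝ, 0 ≤ a ∧ a < b ∧
          ¬ Tendsto (fun j => P (N j) k a b) atTop (𝓝 (G k b - G k a)) := by
  have h : E8helper29.DT.Symb f := ⟨hf.meas, hf.nonneg, hf.le_one, hf.int, hf.one⟩
  by_cases hex : ∃ c : ℝ, f =ᵐ[volume] (Set.Icc c (c + 1)).indicator 1
  · obtain ⟨c, hc⟩ := hex
    exact Or.inl fun m s => E8helper29.DT.JK_interval hc m s
  · right
    intro G hG N hN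
    by_contra hcon
    push Not at hcon
    apply hex
    refine E8helper29.DT.main RH h G (fun k t ht => ?_) N hN (fun k a b ha hab => ?_)
    · have := hG (k + 1) (by omega) t ht
      exact this
    · exact hcon (k + 1) (by omega) a b ha hab

end Pool.Agent.Results.MP_21f43f_nt.DeterminantalLawsH29
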