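import Pool.Agent.E8helper70.Dys.Fin

/-! Dyson's `-1 / (2 π² k²)` law for the autocovariances of the normalised gaps between the zeros
of `ζ`, in averaged form, on the Riemann hypothesis. -/

open Filter
open scoped ContDiff

namespace Pool.Agent.Results.MP_21f43f_nt.DysonLawH70

/-- multiplicity of `s` as a zero of the Riemann zeta function (order of vanishing at `s`) -/
noncomputable def zmult (s : ℂ) : ℕ := analyticOrderNatAt riemannZeta s

/-- the number of nontrivial zeros of `ζ` with ordinate in `(0, t]`, with multiplicity -/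
noncomputable def NZ (t : ℝ) : ℕ :=
  ∑ᶠ s ∈ {s : ℂ | riemannZeta s = 0 ∧ 0 < s.re ∧ s.re < 1 ∧ 0 < s.im ∧ s.im ≤ t}, zmult s

/-- for `n ≥ 1`: `γ_n`, the `n`-th positive ordinate of a nontrivial zero of `ζ`, the ordinates
being listed in nondecreasing order and repeated according to multiplicity -/
noncomputable def ord (n : ℕ) : ℝ := sInf {t : ℝ | n ≤ NZ t}

/-- the normalised ordinate `(1 / 2π) γ_n log γ_n` -/
noncomputable def nord (n : ℕ) : ℝ := 1 / (2 * Real.pi) * ord n * Real.log (ord n)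

/-- the normalised gap `δ_n` between the `n`-th and the `(n+1)`-st zero -/
noncomputable def gap (n : ℕ) : ℝ := nord (n + 1) - nord n

/-- the autocovariance at lag `k` of the first `N` normalised gaps (whose mean tends to `1`):
`(1 / N) ∑_{n ≤ N} (δ_n - 1) (δ_{n+k} - 1)` -/
noncomputable def cov (N k : ℕ) : ℝ :=
  (1 / N : ℝ) * ∑ n ∈ Finset.Icc 1 N, (gap n - 1) * (gap (n + k) - 1)

/-- On the Riemann hypothesis, for every even smooth compactly supported `G`, there is `C` such
that for every `R ≥ 2` and `ε > 0`, for all large `N`,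
`R ∑_{k ∈ ℤ} G (k / R) cov N |k|` is `(1 / π²) ∫_0^∞ (G 0 - G x) / x² dx` up to
`C (log R)² / R + ε`. -/
theorem result (RH : RiemannHypothesis) (G : ℝ → ℝ) (hG : ContDiff ℝ ∞ G)
    (hc : HasCompactSupport G) (he : ∀ x, G (-x) = G x) :
    ∃ C : ℝ, 0 < C ∧ ∀ R : ℝ, 2 ≤ R → ∀ ε : ℝ, 0 < ε → ∀ᶠ N : ℕ in atTop,
      |R * ∑' k : ℤ, G (k / R) * cov N k.natAbs -
        1 / Real.pi ^ 2 * ∫ x in Set.Ioi (0 : ℝ), (G 0 - G x) / x ^ 2| ≤
      C * Real.log R ^ 2 / R + ε := by
  have hRHs : SP.RHs := by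
    intro s h1 h2 h0
    apply RH s h0
    · rintro ⟨k, hk⟩
      have := congrArg Complex.re hk
      simp at this
      have hk0 : (0 : ℝ) ≤ k := Nat.cast_nonneg k
      linarith
    · intro h; rw [h] at h2; simp at h2
  have h2 : ∀ n : ℕ, LG.dlt n = gap n := by
    intro n
    have e : ∀ m : ℕ, SG.ord m = ord m := fun m => rfl
    unfold LG.dlt gap nord
    rw [e, e]
    ring
  have h3 : ∀ N k : ℕ, E8helper70.Dys.cv N k = cov N k := by
    intro N k
    unfold E8helper70.Dys.cv cov
    simp only [h2]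
  have h := E8helper70.Dys.law RH hRHs G hG hc he
  simp only [h3, E8helper70.Dys.LG] at h
  exact h

end Pool.Agent.Results.MP_21f43f_nt.DysonLawH70
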