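import Pool.Agent.E8helper70.Dys.Fin
import Pool.Agent.E8helper56.RG.Rig

/-! Linear rigidity of the sequence of normalised gaps between the zeros of `ζ`, on the Riemann
hypothesis: every run of `m` consecutive gaps is determined, in mean square and with a rate, by the
other gaps. -/

open Filter

namespace Pool.Agent.Results.MP_21f43f_nt.GapRigidityH56

/-- multiplicity of `s` as a zero of the Riemann zeta function (order of vanishing at `s`) -/
noncomputable def zmult (s : ℂ) : ℕ := analyticOrderNatAt riemannZeta s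

/-- the number of nontrivial zeros of `ζ` with ordinate in `(0, t]`, with multiplicity -/
noncomputable def NZ (t : ℝ) : ℕ :=
  ∑ᶠ s ∈ {s : ℂ | riemannZeta s = 0 ∧ 0 < s.re ∧ s.re < 1 ∧ 0 < s.im ∧ s.im ≤ t}, zmult s

/-- for `n ≥ 1`: `γ_n`, the `n`-th positive ordinate of a nontrivial zero of `ζ`, the ordinates
being listed in nondecreasing order and repeated according to multiplicity -/
noncomputable def ord (n : ℕ) : ℝ := sInf {t : ℝ | n ≤ NZ t}

/-- the normalised ordinate `(1 / 2π) γ_n log γ_n` -/
noncomputable def nord (n : ℕ) : ℝ := 1 / (2 * Real.pi) * ord n * Real.log (ord n)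

/-- the normalised gap `δ_n` between the `n`-th and the `(n+1)`-st zero -/
noncomputable def gap (n : ℕ) : ℝ := nord (n + 1) - nord n

/-- the linear prediction of `δ_n + ... + δ_{n+m-1}` from the `K` gaps before and the `K` gaps
after this run, with symmetric coefficients `-c k` -/
noncomputable def pred (c : ℕ → ℝ) (m K n : ℕ) : ℝ :=
  m - ∑ k ∈ Finset.Icc 1 K, c k * ((gap (n - k) - 1) + (gap (n + (m - 1) + k) - 1))

/-- On the Riemann hypothesis there is `C` such that for `1 ≤ m ≤ K / 2` there are coefficients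
`c 1, ..., c K` in `[0, 1]` for which the mean square error of the prediction of runs of `m` gaps
from the `K` gaps on either side is at most `C / log (K / m)` for all large `N`. -/
theorem result (RH : RiemannHypothesis) :
    ∃ C : ℝ, 0 < C ∧ ∀ m K : ℕ, 1 ≤ m → 2 * m ≤ K →
      ∃ c : ℕ → ℝ, (∀ k, 0 ≤ c k ∧ c k ≤ 1) ∧ ∀ᶠ N : ℕ in atTop,
        (1 / N : ℝ) * ∑ n ∈ Finset.Ioc K N,
          (∑ i ∈ Finset.range m, gap (n + i) - pred c m K n) ^ 2 ≤ C / Real.log (K / m) := by
  have hRHs : SP.RHs := by
    intro s h1 h2 h0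
    apply RH s h0
    · rintro ⟨k, hk⟩
      have := congrArg Complex.re hk
      simp at this
      have hk0 : (0 : ℝ) ≤ k := Nat.cast_nonneg k
      linarith
    · intro h; rw [h] at h2; simp at h2
  have h2 : ∀ n : ℕ, LG.dlt n = gap n := by
    intro n
    have e : ∀ m : ℕ, SG.ord m = ord m := fun m => rfl
    unfold LG.dlt gap nord
    rw [e, e]
    ring
  obtain ⟨Cg, hCg, hgr⟩ := E8helper70.Dys.grow hRHs
  obtain ⟨C, hC, h⟩ := E8helper56.RG.rigid (fun n => LG.dlt n - 1)
    (E8helper70.Dys.law RH hRHs) Cg (by linarith) hgr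
  refine ⟨C, hC, fun m K hm hK => ?_⟩
  obtain ⟨c, hc, hN⟩ := h m K hm hK
  refine ⟨c, hc, hN.mono fun N hN => ?_⟩
  refine le_trans (le_of_eq ?_) hN
  congr 1
  refine Finset.sum_congr rfl fun n _ => ?_
  unfold E8helper56.RG.res pred
  simp only [h2]
  rw [Finset.sum_sub_distrib]
  simp only [Finset.sum_const, Finset.card_range, nsmul_eq_mul, mul_one]
  ring

end Pool.Agent.Results.MP_21f43f_nt.GapRigidityH56
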